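import Pool.Agent.helper11.TX.Spec3
import Pool.Agent.helper11.TX.FN

/-!
# TX, part 3 (MP_bf63dc_nt): the final statement with 1/3 (row FNS)
-/

namespace Pool.Agent.helper11.TX

open Finset Pool.Agent.helper85.FC

/-- First part. -/
theorem FNS_one (h1 : MNk (1 / 3) 6) (h2 : HC_stmt) (h5 : NU_stmt) (h6 : CL_stmt) (ε : ℝ)
    (hε : 0 < ε) :
    ∃ N₀ : ℕ, ∀ N : ℕ, N₀ ≤ N → ∃ M₀ : ℕ, ∀ M : ℕ, M₀ ≤ M → ∀ u : ℤ, |u| ≤ M →
      (1 / 3 - ε) * Sm Adm SS N M u ≤ Sm TrueCase SS N M u := by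
  by_cases hε4 : 1 / 3 ≤ ε
  · refine ⟨0, fun N _ => ⟨0, fun M _ u _ => ?_⟩⟩
    have hA := FN_Sm_nonneg (P := Adm) (G := SS) (fun a b c _ => (FN_SS_pos a b c).le) N M u
    have hB := FN_Sm_nonneg (P := TrueCase) (G := SS) (fun a b c _ => (FN_SS_pos a b c).le) N M u
    exact (mul_nonpos_of_nonpos_of_nonneg (by linarith) hA).trans hB
  push Not at hε4
  obtain ⟨w₁, hw₁⟩ := h2 (ε / 4) (by linarith)
  obtain ⟨w₂, hw₂⟩ := h5.2.2.2 (ε / 4) (by linarith)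
  set w := max (max w₁ w₂) 2 with hw
  have hww₁ : w₁ ≤ w := (le_max_left _ _).trans (le_max_left _ _)
  have hww₂ : w₂ ≤ w := (le_max_right _ _).trans (le_max_left _ _)
  have hw2 : 2 ≤ w := le_max_right _ _
  obtain ⟨h30, hT⟩ := hw₂ w hww₂
  obtain ⟨N₁, hN₁⟩ := hw₁ w hww₁
  obtain ⟨N₂, hN₂⟩ := h1 (primorial w) (ε / 4) (primorial_pos w)
    (dvd_trans (by norm_num : 6 ∣ 30) h30) (by linarith) (by linarith) hT (ε / 4) (by linarith)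
  refine ⟨max N₁ N₂, fun N hN => ?_⟩
  obtain ⟨M₁, hM₁⟩ := hN₁ N ((le_max_left _ _).trans hN)
  obtain ⟨M₂, hM₂⟩ := hN₂ N ((le_max_right _ _).trans hN)
  refine ⟨max M₁ M₂, fun M hM u hu => ?_⟩
  have hHC := hM₁ M ((le_max_left _ _).trans hM) u hu
  have hMN := hM₂ M ((le_max_right _ _).trans hM) u
  set W := primorial w with hW
  have hc := FN_cW_pos W
  have hV := FN_VW_nonneg W N
  set T := (M : ℝ) * PW W ^ 2 * VW W N with hT'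
  have hT0 : 0 ≤ T := by positivity
  have hle : Sm TrueCase (Lam W) N M u ≤ cW W * Sm TrueCase SS N M u := by
    rw [← FN_Sm_mul]
    exact FN_Sm_mono (fun a b c h => FN_CL_le h6 hw2 (FN_adm h)) N M u
  have e1 : (1 / 3 - ε / 4) * (1 - ε / 4) * T ≤ cW W * Sm TrueCase SS N M u := by
    refine le_trans (le_of_eq ?_) (hMN.trans hle)
    rw [hT']; ring
  have e2 : cW W * Sm Adm SS N M u ≤ (1 + ε / 4) * T := by
    refine hHC.trans (le_of_eq ?_)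
    rw [hT']; ring
  have e3 : (1 / 3 - ε) * (1 + ε / 4) ≤ (1 / 3 - ε / 4) * (1 - ε / 4) := by nlinarith
  have e4 : cW W * ((1 / 3 - ε) * Sm Adm SS N M u) ≤ cW W * Sm TrueCase SS N M u := by
    calc cW W * ((1 / 3 - ε) * Sm Adm SS N M u) = (1 / 3 - ε) * (cW W * Sm Adm SS N M u) := by ring
      _ ≤ (1 / 3 - ε) * ((1 + ε / 4) * T) := mul_le_mul_of_nonneg_left e2 (by linarith)
      _ = (1 / 3 - ε) * (1 + ε / 4) * T := by ring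
      _ ≤ (1 / 3 - ε / 4) * (1 - ε / 4) * T := mul_le_mul_of_nonneg_right e3 hT0
      _ ≤ _ := e1
  exact le_of_mul_le_mul_left e4 hc

/-- Second part. -/
theorem FNS_two (h1 : MNk (1 / 3) 6) (h3 : PA_stmt) (h4 : TYS_stmt) (h5 : NUS_stmt) :
    ∃ N₀ : ℕ, ∀ N : ℕ, N₀ ≤ N → ∃ M₀ : ℕ, ∀ M : ℕ, M₀ ≤ M → ∀ u : ℤ,
      1 / 4 * Sm Adm (fun _ _ _ => 1) N M u ≤ Sm TrueCase (fun _ _ _ => 1) N M u := by
  obtain ⟨hPW, hLam, hT3⟩ := h5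
  obtain ⟨N₁, hN₁⟩ := h1 6 (2 / 75) (by norm_num) (dvd_refl 6) (by norm_num) (by norm_num)
    (fun G => (hT3 G).trans (by norm_num)) (1 / 1000) (by norm_num)
  obtain ⟨N₂, hN₂⟩ := h4 (1 / 1000) (by norm_num)
  refine ⟨max N₁ N₂, fun N hN => ?_⟩
  obtain ⟨M₁, hM₁⟩ := hN₁ N ((le_max_left _ _).trans hN)
  have hTY := hN₂ N ((le_max_right _ _).trans hN)
  obtain ⟨M₂, hM₂⟩ := h3 N (1 / 1000) (by norm_num)
  refine ⟨max M₁ M₂, fun M hM u => ?_⟩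
  have hMN := hM₁ M ((le_max_left _ _).trans hM) u
  have hPA := hM₂ M ((le_max_right _ _).trans hM) u
  have hle : 3 * Sm TrueCase (Lam 6) N M u ≤ Sm TrueCase (fun _ _ _ => 1) N M u := by
    rw [← FN_Sm_mul]
    refine FN_Sm_mono (fun a b c h => ?_) N M u
    have := hLam a b c (FN_adm h)
    linarith
  rw [hPW] at hMN
  have hV := FN_VW_nonneg 6 N
  have hM0 : (0 : ℝ) ≤ M := Nat.cast_nonneg M
  have e1 : (1 + 1 / 1000 : ℝ) * (M / 2) * VW 2 N ≤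
      (1 + 1 / 1000) * (M / 2) * ((5 / 6 + 1 / 1000) * VW 6 N) :=
    mul_le_mul_of_nonneg_left hTY (by positivity)
  have e2 : 0 ≤ (M : ℝ) * VW 6 N := mul_nonneg hM0 hV
  nlinarith

/-- **Row FNS.** -/
theorem FNS (h2 : HC_stmt) (h3 : PA_stmt) (h4 : TYS_stmt) (h5 : NU_stmt) (h5a : NUS_stmt)
    (h6 : CL_stmt) : FNS_stmt := by
  intro h1 ε hε
  obtain ⟨N₁, hN₁⟩ := FNS_one h1 h2 h5 h6 ε hε
  obtain ⟨N₂, hN₂⟩ := FNS_two h1 h3 h4 h5a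
  refine ⟨max N₁ N₂, fun N hN => ?_⟩
  obtain ⟨M₁, hM₁⟩ := hN₁ N ((le_max_left _ _).trans hN)
  obtain ⟨M₂, hM₂⟩ := hN₂ N ((le_max_right _ _).trans hN)
  exact ⟨max M₁ M₂, fun M hM => ⟨fun u hu => hM₁ M ((le_max_left _ _).trans hM) u hu,
    fun u => hM₂ M ((le_max_right _ _).trans hM) u⟩⟩

end Pool.Agent.helper11.TX
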